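import Pool.Agent.K3h74.SZ.Stm

/-!
# Pull back by the Legendre duplication map (brick TORH, helper4)
-/

set_option autoImplicit false

open Polynomial Finset Pool.Agent.K3h74.SZ

namespace Pool.Agent.K3h4.SZ

/-! ### the homogenisation -/

/-- `b^d r(a/b)` -/
noncomputable def hm (d : ℕ) (r : ℂ[X]) (a b : ℂ) : ℂ :=
  ∑ j ∈ range (d + 1), r.coeff j * (a ^ j * b ^ (d - j))

theorem hm_of_ne (d : ℕ) (r : ℂ[X]) (hr : r.natDegree ≤ d) (a b : ℂ) (hb : b ≠ 0) :
    hm d r a b = b ^ d * r.eval (a / b) := by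
  rw [eval_eq_sum_range' (Nat.lt_succ_of_le hr), mul_sum, hm]
  refine sum_congr rfl fun j hj => ?_
  have hj' : j ≤ d := Nat.lt_succ_iff.1 (mem_range.1 hj)
  have h1 : b ^ d = b ^ j * b ^ (d - j) := by rw [← pow_add]; congr 1; omega
  rw [h1, div_pow]
  have h2 : b ^ j ≠ 0 := pow_ne_zero _ hb
  field_simp

theorem hm_zero (d : ℕ) (r : ℂ[X]) (a : ℂ) : hm d r a 0 = r.coeff d * a ^ d := by
  rw [hm, sum_range_succ, Nat.sub_self, pow_zero, mul_one, sum_eq_zero, zero_add]
  intro j hj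
  have : d - j ≠ 0 := by have := mem_range.1 hj; omega
  rw [zero_pow this, mul_zero, mul_zero]

/-- the numerator at `t` -/
noncomputable def nt (t : ℂ) : ℂ[X] := (X ^ 2 - C t) ^ 2

/-- the denominator at `t` -/
noncomputable def dt (t : ℂ) : ℂ[X] := 4 * (X * (X - 1) * (X - C t))

/-- the homogenised polynomial at `t` -/
noncomputable def hp (t : ℂ) (d : ℕ) (r : ℂ[X]) : ℂ[X] :=
  ∑ j ∈ range (d + 1), C (r.coeff j) * (nt t ^ j * dt t ^ (d - j))

theorem eval_nt (t x : ℂ) : (nt t).eval x = (x ^ 2 - t) ^ 2 := by simp [nt]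

theorem eval_dt (t x : ℂ) : (dt t).eval x = 4 * (x * (x - 1) * (x - t)) := by simp [dt]

theorem eval_hp (t : ℂ) (d : ℕ) (r : ℂ[X]) (x : ℂ) :
    (hp t d r).eval x = hm d r ((nt t).eval x) ((dt t).eval x) := by
  simp [hp, hm, eval_finset_sum]

theorem map_homP (t : ℂ) (d : ℕ) (R : ℤ[X][X]) :
    (homP d R).map (sp t) = hp t d (R.map (sp t)) := by
  have h1 : numP.map (sp t) = nt t := by simp [numP, nt, sp_X]
  have h2 : denP.map (sp t) = dt t := by simp [denP, dt, sp_X]
  rw [homP, hp, Polynomial.map_sum]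
  refine sum_congr rfl fun j _ => ?_
  rw [Polynomial.map_mul, Polynomial.map_mul, Polynomial.map_pow, Polynomial.map_pow, map_C,
    coeff_map, h1, h2]

theorem hp_factor (t : ℂ) (d : ℕ) (S : ℂ[X]) (ρ : ℂ) (hS : S.natDegree ≤ d) :
    hp t (d + 1) ((X - C ρ) * S) = (nt t - C ρ * dt t) * hp t d S := by
  have hdeg : ((X - C ρ) * S).natDegree ≤ d + 1 := by
    refine natDegree_mul_le.trans ?_
    rw [natDegree_X_sub_C]
    omega
  apply Polynomial.funext
  intro x
  rw [eval_mul, eval_hp, eval_hp, eval_sub, eval_mul, eval_C]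
  by_cases hb : (dt t).eval x = 0
  · rw [hb, hm_zero, hm_zero, sub_mul, coeff_sub, coeff_X_mul, coeff_C_mul,
      coeff_eq_zero_of_natDegree_lt (Nat.lt_succ_of_le hS)]
    ring
  · rw [hm_of_ne _ _ hdeg _ _ hb, hm_of_ne _ _ hS _ _ hb, eval_mul, eval_sub, eval_X, eval_C,
      pow_succ]
    field_simp

/-! ### degree and constant coefficient -/

theorem num_monic : numP.Monic := (monic_X_pow_sub_C (X : ℤ[X]) two_ne_zero).pow 2

theorem num_deg : numP.natDegree = 4 := by
  rw [numP, (monic_X_pow_sub_C (X : ℤ[X]) two_ne_zero).natDegree_pow, natDegree_X_pow_sub_C]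

theorem den_deg : denP.natDegree ≤ 3 := by
  have h1 : (X * (X - 1) * (X - C X) : ℤ[X][X]).natDegree ≤ 3 := by
    have ha : (X - 1 : ℤ[X][X]).natDegree ≤ 1 := by
      have := natDegree_X_sub_C (1 : ℤ[X])
      simpa using this.le
    have hb : (X - C X : ℤ[X][X]).natDegree ≤ 1 := (natDegree_X_sub_C _).le
    have hc : (X : ℤ[X][X]).natDegree ≤ 1 := natDegree_X_le
    refine natDegree_mul_le.trans ?_
    have hd : (X * (X - 1) : ℤ[X][X]).natDegree ≤ 2 := by
      refine natDegree_mul_le.trans ?_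
      omega
    omega
  have h2 : denP = C 4 * (X * (X - 1) * (X - C X)) := by
    rw [denP]
    congr 1
  rw [h2]
  exact (natDegree_C_mul_le _ _).trans h1

theorem homP_monic_deg (d : ℕ) (R : ℤ[X][X]) (hR : R.Monic) (hd : R.natDegree = d) :
    (homP d R).Monic ∧ (homP d R).natDegree = 4 * d := by
  have hm : (numP ^ d).Monic := num_monic.pow d
  have hdm : (numP ^ d).natDegree = 4 * d := by
    rw [num_monic.natDegree_pow, num_deg, mul_comm]
  have hlt : (∑ j ∈ range d, C (R.coeff j) * (numP ^ j * denP ^ (d - j)) :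
      ℤ[X][X]).degree < (numP ^ d).degree := by
    rw [degree_eq_natDegree hm.ne_zero, hdm]
    refine (degree_sum_le _ _).trans_lt ?_
    rw [Finset.sup_lt_iff (by exact_mod_cast WithBot.bot_lt_coe (4 * d))]
    intro j hj
    rw [mem_range] at hj
    have h3 : (C (R.coeff j) * (numP ^ j * denP ^ (d - j)) : ℤ[X][X]).natDegree ≤
        4 * j + 3 * (d - j) := by
      refine (natDegree_C_mul_le _ _).trans (natDegree_mul_le.trans ?_)
      have h4 : (numP ^ j).natDegree ≤ 4 * j := by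
        rw [num_monic.natDegree_pow, num_deg, mul_comm]
      have h5 : (denP ^ (d - j)).natDegree ≤ 3 * (d - j) := by
        refine natDegree_pow_le.trans ?_
        rw [mul_comm 3]
        exact Nat.mul_le_mul_left _ den_deg
      omega
    refine (degree_le_natDegree).trans_lt (Nat.cast_lt.mpr ?_)
    omega
  have he : homP d R = (∑ j ∈ range d, C (R.coeff j) * (numP ^ j * denP ^ (d - j))) +
      numP ^ d := by
    rw [homP, sum_range_succ]
    have : R.coeff d = 1 := by rw [← hd]; exact hR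
    rw [this]
    simp
  rw [he]
  refine ⟨hm.add_of_right hlt, ?_⟩
  rw [natDegree_add_eq_right_of_degree_lt hlt, hdm]

theorem homP_coeff_zero (d : ℕ) (R : ℤ[X][X]) (hR : R.Monic) (hd : R.natDegree = d) :
    (homP d R).coeff 0 = X ^ (2 * d) := by
  have h1 : R.coeff d = 1 := by rw [← hd]; exact hR
  have hn : numP.eval 0 = (X : ℤ[X]) ^ 2 := by simp [numP]
  have hD : denP.eval 0 = (0 : ℤ[X]) := by simp [denP]
  rw [coeff_zero_eq_eval_zero, homP, eval_finset_sum, sum_range_succ, sum_eq_zero, zero_add, h1,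
    Nat.sub_self, pow_zero, mul_one, C_1, one_mul, eval_pow, hn, ← pow_mul]
  intro j hj
  have : d - j ≠ 0 := by have := mem_range.1 hj; omega
  rw [eval_mul, eval_mul, eval_pow, eval_pow, hD, zero_pow this, mul_zero, mul_zero]

/-! ### roots -/

theorem not_root {t x : ℂ} (ht0 : t ≠ 0) (ht1 : t ≠ 1) (hx : x ^ 2 = t) :
    (dt t).eval x ≠ 0 := by
  intro h
  rw [eval_dt] at h
  have h0 : x * (x - 1) * (x - t) = 0 := by
    rcases mul_eq_zero.1 h with h | h
    · norm_num at h
    · exact h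
  rcases mul_eq_zero.1 h0 with h | h
  · rcases mul_eq_zero.1 h with h | h
    · apply ht0; rw [← hx, h]; ring
    · have : x = 1 := by linear_combination h
      apply ht1; rw [← hx, this]; ring
  · have hxt : x = t := by linear_combination h
    rw [hxt] at hx
    have : t * (t - 1) = 0 := by linear_combination hx
    rcases mul_eq_zero.1 this with h | h
    · exact ht0 h
    · exact ht1 (by linear_combination h)

theorem dt_ne_of {t x c : ℂ} (ht0 : t ≠ 0) (ht1 : t ≠ 1)
    (h : (nt t).eval x = c * (dt t).eval x) : (dt t).eval x ≠ 0 := by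
  intro hD
  have hn : (nt t).eval x = 0 := by rw [h, hD, mul_zero]
  rw [eval_nt] at hn
  have : x ^ 2 = t := by
    have := pow_eq_zero_iff (two_ne_zero) |>.1 hn
    linear_combination this
  exact not_root ht0 ht1 this hD

theorem special {m : ℕ} {R : ℤ[X][X]} (hR : Good m R) {t : ℂ} (ht0 : t ≠ 0) (ht1 : t ≠ 1)
    (x : ℂ) (hx : x ^ 2 = t ∨ x ^ 2 - 2 * x + t = 0 ∨ x ^ 2 - 2 * t * x + t = 0) :
    (hp t (2 * m) (R.map (sp t))).eval x ≠ 0 := by
  have hdeg : (R.map (sp t)).natDegree ≤ 2 * m := natDegree_map_le.trans hR.deg.le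
  have key : ∀ c : ℂ, (R.map (sp t)).eval c ≠ 0 → (nt t).eval x = c * (dt t).eval x →
      (hp t (2 * m) (R.map (sp t))).eval x ≠ 0 := by
    intro c hc h
    have hD := dt_ne_of ht0 ht1 h
    rw [eval_hp, hm_of_ne _ _ hdeg _ _ hD, h, mul_div_assoc, div_self hD, mul_one]
    exact mul_ne_zero (pow_ne_zero _ hD) hc
  rcases hx with hx | hx | hx
  · refine key 0 (hR.ne0 t ht0 ht1) ?_
    rw [eval_nt, hx]; ring
  · refine key 1 (hR.ne1 t ht0 ht1) ?_
    rw [eval_nt, eval_dt]
    linear_combination (x ^ 2 - 2 * x + t) * hx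
  · refine key t (hR.net t ht0 ht1) ?_
    rw [eval_nt, eval_dt]
    linear_combination (x ^ 2 - 2 * t * x + t) * hx

theorem at_zero_den {m : ℕ} {R : ℤ[X][X]} (hR : Good m R) {t : ℂ} (x : ℂ)
    (hD : (dt t).eval x = 0) (hn : (nt t).eval x ≠ 0) :
    (hp t (2 * m) (R.map (sp t))).eval x ≠ 0 := by
  rw [eval_hp, hD, hm_zero, coeff_map]
  have h1 : R.coeff (2 * m) = 1 := by rw [← hR.deg]; exact hR.monic
  rw [h1, map_one, one_mul]
  exact pow_ne_zero _ hn

theorem nt_ne {t x : ℂ} (ht0 : t ≠ 0) (ht1 : t ≠ 1) (hD : (dt t).eval x = 0) :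
    (nt t).eval x ≠ 0 := by
  intro h
  exact dt_ne_of (c := 0) ht0 ht1 (by rw [h, zero_mul]) hD

theorem simple_root {m : ℕ} {R : ℤ[X][X]} (hR : Good m R) {t : ℂ} (ht0 : t ≠ 0) (ht1 : t ≠ 1)
    (x : ℂ) (hx : (hp t (2 * m) (R.map (sp t))).eval x = 0) :
    (hp t (2 * m) (R.map (sp t))).derivative.eval x ≠ 0 := by
  have hD : (dt t).eval x ≠ 0 := fun h => at_zero_den hR x h (nt_ne ht0 ht1 h) hx
  have hmon : (R.map (sp t)).Monic := hR.monic.map _
  have hdegeq : (R.map (sp t)).natDegree = 2 * m := by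
    rw [hR.monic.natDegree_map, hR.deg]
  obtain ⟨ρ, hρ⟩ : ∃ z, z = (nt t).eval x / (dt t).eval x := ⟨_, rfl⟩
  have hnρ : (nt t).eval x = ρ * (dt t).eval x := by rw [hρ, div_mul_cancel₀ _ hD]
  have hroot : (R.map (sp t)).eval ρ = 0 := by
    have h := hx
    rw [eval_hp, hm_of_ne _ _ hdegeq.le _ _ hD, ← hρ] at h
    exact (mul_eq_zero.1 h).resolve_left (pow_ne_zero _ hD)
  obtain ⟨S, hS⟩ := dvd_iff_isRoot.2 hroot
  have hS0 : S ≠ 0 := by
    rintro rfl
    rw [mul_zero] at hS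
    exact hmon.ne_zero hS
  have hSdeg : S.natDegree + 1 = 2 * m := by
    rw [← hdegeq, hS, natDegree_mul (X_sub_C_ne_zero ρ) hS0, natDegree_X_sub_C, add_comm]
  have hSρ : S.eval ρ ≠ 0 := by
    have h := hR.simple t ht0 ht1 ρ hroot
    rw [hS, derivative_mul, eval_add, eval_mul, eval_mul, derivative_sub, derivative_X,
      derivative_C, sub_zero, eval_one, one_mul, eval_sub, eval_X, eval_C, sub_self, zero_mul,
      add_zero] at h
    exact h
  have hfac : hp t (2 * m) (R.map (sp t)) = (nt t - C ρ * dt t) * hp t S.natDegree S := by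
    rw [hS, ← hSdeg]
    exact hp_factor t _ S ρ le_rfl
  have hval : (hp t S.natDegree S).eval x ≠ 0 := by
    rw [eval_hp, hm_of_ne _ _ le_rfl _ _ hD, ← hρ]
    exact mul_ne_zero (pow_ne_zero _ hD) hSρ
  have hder : (nt t - C ρ * dt t).derivative.eval x * (dt t).eval x =
      4 * ((x ^ 2 - t) * (x ^ 2 - 2 * x + t) * (x ^ 2 - 2 * t * x + t)) := by
    have h1 : (nt t - C ρ * dt t).derivative.eval x =
        4 * x * (x ^ 2 - t) - ρ * (4 * (3 * x ^ 2 - 2 * (1 + t) * x + t)) := by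
      simp [nt, dt, derivative_pow]
      ring
    rw [h1, sub_mul]
    have h2 : ρ * (4 * (3 * x ^ 2 - 2 * (1 + t) * x + t)) * (dt t).eval x =
        (nt t).eval x * (4 * (3 * x ^ 2 - 2 * (1 + t) * x + t)) := by
      rw [hnρ]; ring
    rw [h2, eval_nt, eval_dt]
    ring
  have hne : (nt t - C ρ * dt t).derivative.eval x ≠ 0 := by
    intro h
    rw [h, zero_mul] at hder
    have h3 : (x ^ 2 - t) * (x ^ 2 - 2 * x + t) * (x ^ 2 - 2 * t * x + t) = 0 := by
      rcases mul_eq_zero.1 hder.symm with h | h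
      · norm_num at h
      · exact h
    refine special hR ht0 ht1 x ?_ hx
    rcases mul_eq_zero.1 h3 with h | h
    · rcases mul_eq_zero.1 h with h | h
      · exact Or.inl (by linear_combination h)
      · exact Or.inr (Or.inl h)
    · exact Or.inr (Or.inr h)
  rw [hfac, derivative_mul, eval_add, eval_mul, eval_mul]
  have h0 : (nt t - C ρ * dt t).eval x = 0 := by
    rw [eval_sub, eval_mul, eval_C, hnρ, sub_self]
  rw [h0, zero_mul, add_zero]
  exact mul_ne_zero hne hval

theorem t_TORH : S_TORH := by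
  intro m R hR
  have h1 := homP_monic_deg (2 * m) R hR.monic hR.deg
  refine ⟨⟨h1.1, by rw [h1.2]; ring, Or.inl ?_, ?_, ?_, ?_, ?_⟩, ?_⟩
  · rw [homP_coeff_zero (2 * m) R hR.monic hR.deg]
    congr 1
    ring
  · intro t ht0 ht1 x hx
    rw [map_homP] at hx ⊢
    exact simple_root hR ht0 ht1 x hx
  · intro t ht0 ht1
    rw [map_homP]
    have hD : (dt t).eval 0 = 0 := by rw [eval_dt]; ring
    exact at_zero_den hR 0 hD (nt_ne ht0 ht1 hD)
  · intro t ht0 ht1
    rw [map_homP]
    have hD : (dt t).eval 1 = 0 := by rw [eval_dt]; ring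
    exact at_zero_den hR 1 hD (nt_ne ht0 ht1 hD)
  · intro t ht0 ht1
    rw [map_homP]
    have hD : (dt t).eval t = 0 := by rw [eval_dt]; ring
    exact at_zero_den hR t hD (nt_ne ht0 ht1 hD)
  · intro t ht0 ht1 x hx
    rw [map_homP]
    exact special hR ht0 ht1 x hx

end Pool.Agent.K3h4.SZ
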